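import Mathlib

/-!
# A prismoid without a nonoverlapping band unfolding

We exhibit a prismoid (in fact a frustum of a hexagonal pyramid) all of whose band unfoldings
overlap.
-/

namespace Pool.Agent.Results.MP_1500ab_co.FrustumBand

/-- The planar cross product of two vectors of the plane `ℂ`. -/
def cross (z w : ℂ) : ℝ := z.re * w.im - z.im * w.re

/-- `v 0, …, v (n-1)` are the vertices, in counterclockwise order, of a convex polygon: all the
other vertices lie strictly to the left of each directed edge from `v i` to `v (i+1)`. -/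
def IsConvexPolygon {n : ℕ} (v : ZMod n → ℂ) : Prop :=
  ∀ i j : ZMod n, j ≠ i → j ≠ i + 1 → 0 < cross (v (i + 1) - v i) (v j - v i)

/-- A prismoid with `n`-gonal top and base: the base polygon `b` lies in the plane of height `0`,
the top polygon `a` in the plane of height `h > 0`, both are convex (so `n ≥ 3`), and
corresponding edges are parallel and equally directed (so the polygons are equiangular). -/
structure Prismoid (n : ℕ) where
  /-- the vertices of the top -/
  a : ZMod n → ℂ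
  /-- the vertices of the base -/
  b : ZMod n → ℂ
  /-- the height -/
  h : ℝ
  three_le : 3 ≤ n
  h_pos : 0 < h
  convex_a : IsConvexPolygon a
  convex_b : IsConvexPolygon b
  parallel : ∀ i, ∃ t : ℝ, 0 < t ∧ a (i + 1) - a i = t * (b (i + 1) - b i)

/-- The vertices of a prismoid: `up i` is the top vertex `a i`, `dn i` the base vertex `b i`. -/
inductive Vertex (n : ℕ) where
  | up (i : ZMod n)
  | dn (i : ZMod n)
deriving DecidableEq

/-- The faces of a prismoid: top, base, and the lateral trapezoids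
`side i = (a i, a (i+1), b (i+1), b i)`. -/
inductive Face (n : ℕ) where
  | top
  | base
  | side (i : ZMod n)
deriving DecidableEq

/-- The set of vertices of a face. -/
def Face.verts {n : ℕ} : Face n → Set (Vertex n)
  | .top => Set.range Vertex.up
  | .base => Set.range Vertex.dn
  | .side i => {.dn i, .up i, .up (i + 1), .dn (i + 1)}

/-- The position of a vertex in space. -/
def Prismoid.pos {n : ℕ} (P : Prismoid n) : Vertex n → EuclideanSpace ℝ (Fin 3)
  | .up i => !₂[(P.a i).re, (P.a i).im, P.h]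
  | .dn i => !₂[(P.b i).re, (P.b i).im, 0]

/-- A development `f` places the vertex `v` of the face `F` at the point `f F v` of the plane. It
is hinged at the edge `u v` shared by the faces `F` and `G` if both faces place `u`, `v` at the
same points and all other vertices of `F` and of `G` lie strictly on opposite sides of the line
through these two points. -/
def Hinge {n : ℕ} (f : Face n → Vertex n → ℂ) (F G : Face n) (u v : Vertex n) : Prop :=
  f F u = f G u ∧ f F v = f G v ∧
    ∀ w ∈ F.verts, ∀ w' ∈ G.verts, w ≠ u → w ≠ v → w' ≠ u → w' ≠ v →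
      cross (f F v - f F u) (f F w - f F u) * cross (f G v - f G u) (f G w' - f G u) < 0

/-- `f` is the band unfolding of `P` in which the side edge `(a i, b i)` is cut, the top edge
`(a j, a (j+1))` and the base edge `(b k, b (k+1))` are kept, and all other top and base edges are
cut: every face is mapped isometrically, consecutive lateral faces are hinged at their common
side edge except at the cut one, the top is hinged to the band at the edge `(a j, a (j+1))` and
the base at the edge `(b k, b (k+1))`. -/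
structure IsBandUnfolding {n : ℕ} (P : Prismoid n) (i j k : ZMod n)
    (f : Face n → Vertex n → ℂ) : Prop where
  congr : ∀ F : Face n, ∀ u ∈ F.verts, ∀ v ∈ F.verts,
    dist (f F u) (f F v) = dist (P.pos u) (P.pos v)
  side_hinge : ∀ m, m ≠ i → Hinge f (.side (m - 1)) (.side m) (.dn m) (.up m)
  top_hinge : Hinge f (.side j) .top (.up j) (.up (j + 1))
  base_hinge : Hinge f (.side k) .base (.dn k) (.dn (k + 1))

/-- Two distinct faces have images (the convex hulls of the images of their vertices) whose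
interiors intersect. -/
def Overlaps {n : ℕ} (f : Face n → Vertex n → ℂ) : Prop :=
  ∃ F G : Face n, F ≠ G ∧
    (interior (convexHull ℝ (f F '' F.verts)) ∩
      interior (convexHull ℝ (f G '' G.verts))).Nonempty

/-! ## Plane geometry -/

theorem cross_mul_left (A z w : ℂ) : cross (A * z) (A * w) = Complex.normSq A * cross z w := by
  simp only [cross, Complex.mul_re, Complex.mul_im, Complex.normSq_apply]
  ring

theorem unique_real {a b c d s t : ℝ} (e1 : a * a + b * b = c * c + d * d)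
    (e2 : (a - s) * (a - s) + (b - t) * (b - t) = (c - s) * (c - s) + (d - t) * (d - t))
    (h3 : 0 < (s * b - t * a) * (s * d - t * c)) : a = c ∧ b = d := by
  have dot : a * s + b * t = c * s + d * t := by linarith
  have sq : (s * b - t * a) ^ 2 = (s * d - t * c) ^ 2 := by
    have g1 : (s * b - t * a) ^ 2 = (s * s + t * t) * (a * a + b * b) - (a * s + b * t) ^ 2 := by
      ring
    have g2 : (s * d - t * c) ^ 2 = (s * s + t * t) * (c * c + d * d) - (c * s + d * t) ^ 2 := by
      ring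
    rw [g1, g2, e1, dot]
  have cr : s * b - t * a = s * d - t * c := by
    rcases sq_eq_sq_iff_eq_or_eq_neg.mp sq with h | h
    · exact h
    · exfalso
      rw [h] at h3
      have := mul_self_nonneg (s * d - t * c)
      linarith
  have ne : s * s + t * t ≠ 0 := by
    intro h0
    have hs0 : s = 0 := by
      have h1 := mul_self_nonneg s
      have h2 := mul_self_nonneg t
      exact mul_self_eq_zero.mp (by linarith)
    have ht0 : t = 0 := by
      have h1 := mul_self_nonneg s
      have h2 := mul_self_nonneg t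
      exact mul_self_eq_zero.mp (by linarith)
    rw [hs0, ht0] at h3
    simp at h3
  have r1 : (s * s + t * t) * (a - c) = 0 := by linear_combination s * dot - t * cr
  have r2 : (s * s + t * t) * (b - d) = 0 := by linear_combination t * dot + s * cr
  constructor
  · rcases mul_eq_zero.mp r1 with h | h
    · exact absurd h ne
    · linarith
  · rcases mul_eq_zero.mp r2 with h | h
    · exact absurd h ne
    · linarith

/-- A point is determined by its distances to two points and the side it lies on. -/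
theorem unique_pt {z Z P Q : ℂ} (h1 : dist z P = dist Z P) (h2 : dist z Q = dist Z Q)
    (h3 : 0 < cross (Q - P) (z - P) * cross (Q - P) (Z - P)) : z = Z := by
  have e1 : Complex.normSq (z - P) = Complex.normSq (Z - P) := by
    rw [Complex.normSq_eq_norm_sq, Complex.normSq_eq_norm_sq, ← dist_eq_norm, ← dist_eq_norm, h1]
  have e2 : Complex.normSq (z - Q) = Complex.normSq (Z - Q) := by
    rw [Complex.normSq_eq_norm_sq, Complex.normSq_eq_norm_sq, ← dist_eq_norm, ← dist_eq_norm, h2]
  simp only [Complex.normSq_apply, Complex.sub_re, Complex.sub_im, cross] at e1 e2 h3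
  have := unique_real (a := z.re - P.re) (b := z.im - P.im) (c := Z.re - P.re)
    (d := Z.im - P.im) (s := Q.re - P.re) (t := Q.im - P.im) e1
    (by
      have k1 : z.re - P.re - (Q.re - P.re) = z.re - Q.re := by ring
      have k2 : z.im - P.im - (Q.im - P.im) = z.im - Q.im := by ring
      have k3 : Z.re - P.re - (Q.re - P.re) = Z.re - Q.re := by ring
      have k4 : Z.im - P.im - (Q.im - P.im) = Z.im - Q.im := by ring
      rw [k1, k2, k3, k4]; exact e2) h3
  apply Complex.ext
  · linarith [this.1]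
  · linarith [this.2]

theorem norm_of_normSq {A : ℂ} (hA : Complex.normSq A = 1) : ‖A‖ = 1 := by
  have : ‖A‖ ^ 2 = 1 := by rw [← Complex.normSq_eq_norm_sq, hA]
  have h0 := norm_nonneg A
  nlinarith

theorem dist_frame {A B : ℂ} (hA : Complex.normSq A = 1) (x y : ℂ) :
    dist (A * x + B) (A * y + B) = dist x y := by
  rw [dist_eq_norm, dist_eq_norm]
  have : A * x + B - (A * y + B) = A * (x - y) := by ring
  rw [this, norm_mul, norm_of_normSq hA, one_mul]

theorem cross_frame {A B p q c : ℂ} (hA : Complex.normSq A = 1) :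
    cross (A * q + B - (A * p + B)) (A * c + B - (A * p + B)) = cross (q - p) (c - p) := by
  have e1 : A * q + B - (A * p + B) = A * (q - p) := by ring
  have e2 : A * c + B - (A * p + B) = A * (c - p) := by ring
  rw [e1, e2, cross_mul_left, hA, one_mul]

theorem unique_frame {A B z p q c : ℂ} (hA : Complex.normSq A = 1)
    (h1 : dist z (A * p + B) = dist c p) (h2 : dist z (A * q + B) = dist c q)
    (h3 : 0 < cross (A * q + B - (A * p + B)) (z - (A * p + B)) * cross (q - p) (c - p)) :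
    z = A * c + B := by
  apply unique_pt (P := A * p + B) (Q := A * q + B)
  · rw [h1, dist_frame hA]
  · rw [h2, dist_frame hA]
  · rw [cross_frame hA]; exact h3

/-- `X` lies strictly inside the triangle `p q r`. -/
def InTri (p q r X : ℂ) : Prop :=
  (0 < cross (q - p) (X - p) ∧ 0 < cross (r - q) (X - q) ∧ 0 < cross (p - r) (X - r)) ∨
  (cross (q - p) (X - p) < 0 ∧ cross (r - q) (X - q) < 0 ∧ cross (p - r) (X - r) < 0)

theorem cross_id (p q r X : ℂ) :
    (cross (r - q) (X - q) : ℂ) * p + (cross (p - r) (X - r) : ℂ) * q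
      + (cross (q - p) (X - p) : ℂ) * r
    = ((cross (r - q) (X - q) + cross (p - r) (X - r) + cross (q - p) (X - p) : ℝ) : ℂ) * X := by
  apply Complex.ext
  · simp [cross]; ring
  · simp [cross]; ring

theorem inTri_mem_convexHull {p q r X : ℂ} (h : InTri p q r X) :
    X ∈ convexHull ℝ ({p, q, r} : Set ℂ) := by
  have key : ∀ c1 c2 c3 : ℝ, 0 ≤ c1 → 0 ≤ c2 → 0 ≤ c3 → c1 + c2 + c3 = 1 →
      (c1 : ℂ) * p + (c2 : ℂ) * q + (c3 : ℂ) * r = X → X ∈ convexHull ℝ ({p, q, r} : Set ℂ) := by
    intro c1 c2 c3 h1 h2 h3 hs hX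
    have := (convex_convexHull ℝ ({p, q, r} : Set ℂ)).sum_mem (t := (Finset.univ : Finset (Fin 3)))
      (w := ![c1, c2, c3]) (z := ![p, q, r])
      (by intro i _; fin_cases i <;> simp [h1, h2, h3])
      (by simp [Fin.sum_univ_three, hs])
      (by
        intro i _
        apply subset_convexHull
        fin_cases i <;> simp)
    rw [Fin.sum_univ_three] at this
    simp only [Matrix.cons_val_zero, Matrix.cons_val_one, Matrix.cons_val_two, Matrix.head_cons,
      Matrix.tail_cons, Complex.real_smul] at this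
    rw [← hX]
    exact this
  have hid := cross_id p q r X
  rcases h with ⟨h3, h1, h2⟩ | ⟨h3, h1, h2⟩
  · set c1 := cross (r - q) (X - q)
    set c2 := cross (p - r) (X - r)
    set c3 := cross (q - p) (X - p)
    have hS : 0 < c1 + c2 + c3 := by linarith
    have hSC : ((c1 + c2 + c3 : ℝ) : ℂ) ≠ 0 := by
      exact_mod_cast hS.ne'
    refine key (c1 / (c1 + c2 + c3)) (c2 / (c1 + c2 + c3)) (c3 / (c1 + c2 + c3)) (by positivity)
      (by positivity) (by positivity) (by field_simp) ?_
    have : X = ((c1 : ℂ) * p + (c2 : ℂ) * q + (c3 : ℂ) * r) / ((c1 + c2 + c3 : ℝ) : ℂ) := by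
      rw [hid]; field_simp
    rw [this]
    push_cast at hSC ⊢
    field_simp
  · set c1 := cross (r - q) (X - q)
    set c2 := cross (p - r) (X - r)
    set c3 := cross (q - p) (X - p)
    have hS : c1 + c2 + c3 < 0 := by linarith
    have hSC : ((c1 + c2 + c3 : ℝ) : ℂ) ≠ 0 := by
      exact_mod_cast hS.ne
    refine key (c1 / (c1 + c2 + c3)) (c2 / (c1 + c2 + c3)) (c3 / (c1 + c2 + c3))
      (div_nonneg_of_nonpos h1.le hS.le) (div_nonneg_of_nonpos h2.le hS.le)
      (div_nonneg_of_nonpos h3.le hS.le) (by rw [← add_div, ← add_div, div_self hS.ne]) ?_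
    have : X = ((c1 : ℂ) * p + (c2 : ℂ) * q + (c3 : ℂ) * r) / ((c1 + c2 + c3 : ℝ) : ℂ) := by
      rw [hid]; field_simp
    rw [this]
    push_cast at hSC ⊢
    field_simp

theorem continuous_cross_left (u v : ℂ) : Continuous fun X : ℂ => cross u (X - v) := by
  unfold cross
  fun_prop

theorem inTri_mem_interior {p q r X : ℂ} (h : InTri p q r X) :
    X ∈ interior (convexHull ℝ ({p, q, r} : Set ℂ)) := by
  have hopen : IsOpen {Y : ℂ | InTri p q r Y} := by
    have h1 := continuous_cross_left (q - p) p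
    have h2 := continuous_cross_left (r - q) q
    have h3 := continuous_cross_left (p - r) r
    exact ((isOpen_lt continuous_const h1).inter ((isOpen_lt continuous_const h2).inter
      (isOpen_lt continuous_const h3))).union ((isOpen_lt h1 continuous_const).inter
      ((isOpen_lt h2 continuous_const).inter (isOpen_lt h3 continuous_const)))
  exact interior_maximal (fun Y hY => inTri_mem_convexHull hY) hopen h

theorem inTri_frame {A B p q r X : ℂ} (hA : Complex.normSq A = 1) (h : InTri p q r X) :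
    InTri (A * p + B) (A * q + B) (A * r + B) (A * X + B) := by
  unfold InTri at *
  rw [cross_frame hA, cross_frame hA, cross_frame hA]
  exact h

/-! ## Gaussian rationals, for exact computations -/

/-- Gaussian rationals. -/
structure GQ where
  re : ℚ
  im : ℚ
deriving DecidableEq

namespace GQ

/-- sum -/
def add (z w : GQ) : GQ := ⟨z.re + w.re, z.im + w.im⟩
/-- difference -/
def sub (z w : GQ) : GQ := ⟨z.re - w.re, z.im - w.im⟩
/-- product -/
def mul (z w : GQ) : GQ := ⟨z.re * w.re - z.im * w.im, z.re * w.im + z.im * w.re⟩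
/-- conjugate -/
def conj (z : GQ) : GQ := ⟨z.re, -z.im⟩
/-- squared norm -/
def nsq (z : GQ) : ℚ := z.re * z.re + z.im * z.im
/-- cross product -/
def crs (z w : GQ) : ℚ := z.re * w.im - z.im * w.re
/-- the complex number -/
def toC (z : GQ) : ℂ := ⟨(z.re : ℝ), (z.im : ℝ)⟩

theorem toC_add (z w : GQ) : (z.add w).toC = z.toC + w.toC := by
  apply Complex.ext <;> simp [toC, add]

theorem toC_sub (z w : GQ) : (z.sub w).toC = z.toC - w.toC := by
  apply Complex.ext <;> simp [toC, sub]

theorem toC_mul (z w : GQ) : (z.mul w).toC = z.toC * w.toC := by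
  apply Complex.ext <;> simp [toC, mul]

theorem normSq_toC (z : GQ) : Complex.normSq z.toC = (z.nsq : ℝ) := by
  simp [toC, nsq, Complex.normSq_apply]

theorem cross_toC (z w : GQ) : cross z.toC w.toC = (crs z w : ℝ) := by
  simp [toC, crs, cross]

theorem dist_toC (z w : GQ) : dist z.toC w.toC = Real.sqrt ((z.sub w).nsq : ℝ) := by
  rw [dist_eq_norm, ← toC_sub, Complex.norm_def, normSq_toC]

end GQ

open GQ

/-! ## The example -/

/-- tangents of half the exterior angles -/
def xs : ZMod 6 → ℚ := ![13/9, 1/12, 16/11, 3/41, 16/11, 1/12]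

/-- unit outward normals of the base edges -/
def us : ZMod 6 → GQ := ![⟨1, 0⟩, ⟨143/145, 24/145⟩, ⟨-33/65, 56/65⟩, ⟨-204/325, 253/325⟩,
  ⟨-364/725, -627/725⟩, ⟨-44/125, -117/125⟩]

/-- base vertices -/
def bs : ZMod 6 → GQ := ![⟨1, -13/9⟩, ⟨1, 1/12⟩, ⟨41/55, 8/5⟩, ⟨-117/205, 169/205⟩,
  ⟨-44/25, -37/275⟩, ⟨-43/100, -68/75⟩]

/-- local coordinates in the lateral face `m` (the apex of the pyramid is at the origin) -/
def loc (m : ZMod 6) : Vertex 6 → GQ
  | .dn v => if v = m then ⟨5/4, -xs m⟩ else ⟨5/4, xs (m + 1)⟩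
  | .up v => if v = m then ⟨5/2, -(2 * xs m)⟩ else ⟨5/2, 2 * xs (m + 1)⟩

/-- coordinates of the base hinged to the lateral face `k`, in the local frame of that face -/
def cb (k : ZMod 6) : Vertex 6 → GQ
  | .dn v => GQ.add (GQ.mul (bs v) (GQ.conj (us k))) ⟨1/4, 0⟩
  | .up _ => ⟨0, 0⟩

/-- coordinates of the top hinged to the lateral face `j`, in the local frame of that face -/
def ct (j : ZMod 6) : Vertex 6 → GQ
  | .up v => GQ.mul ⟨2, 0⟩ (GQ.sub ⟨9/4, 0⟩ (GQ.mul (GQ.conj (bs v)) (us j)))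
  | .dn _ => ⟨0, 0⟩

/-- rotation from a lateral face to the next one -/
def rot (m : ZMod 6) : GQ :=
  GQ.mul ⟨1 / (25/16 + xs m * xs m), 0⟩ (GQ.mul ⟨5/4, xs m⟩ ⟨5/4, xs m⟩)

/-- squared distances in space -/
def d2 : Vertex 6 → Vertex 6 → ℚ
  | .dn v, .dn w => GQ.nsq (GQ.sub (bs v) (bs w))
  | .up v, .dn w => GQ.nsq (GQ.sub (GQ.mul ⟨2, 0⟩ (bs v)) (bs w)) + 9/16
  | .dn v, .up w => GQ.nsq (GQ.sub (bs v) (GQ.mul ⟨2, 0⟩ (bs w))) + 9/16
  | .up v, .up w => GQ.nsq (GQ.sub (GQ.mul ⟨2, 0⟩ (bs v)) (GQ.mul ⟨2, 0⟩ (bs w)))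

theorem convex_bs : ∀ i j : ZMod 6, j ≠ i → j ≠ i + 1 →
    0 < crs ((bs (i + 1)).sub (bs i)) ((bs j).sub (bs i)) := by
  decide +kernel

theorem rot_nsq : ∀ m : ZMod 6, (rot m).nsq = 1 := by
  decide +kernel

theorem loc_d2 : ∀ m : ZMod 6, ∀ x ∈ [Vertex.dn m, .up m, .up (m + 1), .dn (m + 1)],
    ∀ y ∈ [Vertex.dn m, .up m, .up (m + 1), .dn (m + 1)],
    ((loc m x).sub (loc m y)).nsq = d2 x y := by
  decide +kernel

theorem cb_d2 : ∀ k v w : ZMod 6, ((cb k (.dn v)).sub (cb k (.dn w))).nsq = d2 (.dn v) (.dn w) := by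
  decide +kernel

theorem ct_d2 : ∀ k v w : ZMod 6, ((ct k (.up v)).sub (ct k (.up w))).nsq = d2 (.up v) (.up w) := by
  decide +kernel

/-- The frustum: the top is the base scaled by the factor `2`, the height is `3/4`. -/
noncomputable def P0 : Prismoid 6 where
  a i := 2 * (bs i).toC
  b i := (bs i).toC
  h := 3 / 4
  three_le := by norm_num
  h_pos := by norm_num
  convex_a := by
    intro i j h1 h2
    have h := convex_bs i j h1 h2
    rw [← mul_sub, ← mul_sub, cross_mul_left, ← toC_sub, ← toC_sub, cross_toC]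
    have h' : (0 : ℝ) < (crs ((bs (i + 1)).sub (bs i)) ((bs j).sub (bs i)) : ℝ) := by
      exact_mod_cast h
    have h2 : Complex.normSq 2 = 4 := by
      rw [show (2 : ℂ) = ((2 : ℝ) : ℂ) by norm_num, Complex.normSq_ofReal]; norm_num
    rw [h2]
    positivity
  convex_b := by
    intro i j h1 h2
    have h := convex_bs i j h1 h2
    rw [← toC_sub, ← toC_sub, cross_toC]
    exact_mod_cast h
  parallel := fun i => ⟨2, by norm_num, by push_cast; ring⟩

theorem dist_pos (x y : Vertex 6) : dist (P0.pos x) (P0.pos y) = Real.sqrt (d2 x y : ℝ) := by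
  rw [EuclideanSpace.dist_eq]
  congr 1
  rcases x with v | v <;> rcases y with w | w <;>
  · simp [Fin.sum_univ_three, Prismoid.pos, P0, Real.dist_eq, sq_abs, d2, nsq, GQ.sub, GQ.mul, toC]
    ring

theorem mem_side {m : ZMod 6} {x : Vertex 6} :
    x ∈ (Face.side m).verts ↔ x ∈ [Vertex.dn m, .up m, .up (m + 1), .dn (m + 1)] := by
  simp [Face.verts]

theorem pos_of_neg_neg {s t r : ℝ} (h1 : s * t < 0) (h2 : s * r < 0) : 0 < t * r := by
  have h3 : 0 < (s * t) * (s * r) := mul_pos_of_neg_of_neg h1 h2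
  have h4 : (s * t) * (s * r) = s ^ 2 * (t * r) := by ring
  by_contra h
  push Not at h
  have h5 : s ^ 2 * (t * r) ≤ 0 := mul_nonpos_of_nonneg_of_nonpos (sq_nonneg s) h
  linarith

theorem place_of_hinge {f : Face 6 → Vertex 6 → ℂ} {F G : Face 6} {u v w : Vertex 6}
    {g g' : Vertex 6 → ℂ} {A B : ℂ} (hA : Complex.normSq A = 1)
    (hF : ∀ x ∈ F.verts, f F x = A * g x + B)
    (H : Hinge f F G u v) (hu : u ∈ F.verts) (hv : v ∈ F.verts) (hw : w ∈ F.verts)
    (hu' : u ∈ G.verts) (hv' : v ∈ G.verts)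
    (hwu : w ≠ u) (hwv : w ≠ v) (gu : g u = g' u) (gv : g v = g' v)
    (hc : ∀ x ∈ G.verts, ∀ y ∈ G.verts, dist (f G x) (f G y) = dist (g' x) (g' y))
    (hs : ∀ x ∈ G.verts, x ≠ u → x ≠ v →
      cross (g v - g u) (g w - g u) * cross (g' v - g' u) (g' x - g' u) < 0) :
    ∀ x ∈ G.verts, f G x = A * g' x + B := by
  intro x hx
  have Gu : f G u = A * g' u + B := by rw [← H.1, hF u hu, gu]
  have Gv : f G v = A * g' v + B := by rw [← H.2.1, hF v hv, gv]
  by_cases hxu : x = u
  · rw [hxu]; exact Gu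
  by_cases hxv : x = v
  · rw [hxv]; exact Gv
  have h3 := H.2.2 w hw x hx hwu hwv hxu hxv
  rw [hF u hu, hF v hv, hF w hw, cross_frame hA, Gu, Gv] at h3
  apply unique_frame hA (p := g' u) (q := g' v)
  · rw [← Gu]; exact hc x hx u hu'
  · rw [← Gv]; exact hc x hx v hv'
  · exact pos_of_neg_neg h3 (hs x hx hxu hxv)

theorem Hinge.symm {n : ℕ} {f : Face n → Vertex n → ℂ} {F G : Face n} {u v : Vertex n}
    (H : Hinge f F G u v) : Hinge f G F u v := by
  refine ⟨H.1.symm, H.2.1.symm, ?_⟩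
  intro w hw w' hw' h1 h2 h3 h4
  rw [mul_comm]
  exact H.2.2 w' hw' w hw h3 h4 h1 h2

/-! ### Model identities -/

theorem rot_d2 : ∀ m : ZMod 6, ∀ x ∈ [Vertex.dn m, .up m, .up (m + 1), .dn (m + 1)],
    ∀ y ∈ [Vertex.dn m, .up m, .up (m + 1), .dn (m + 1)],
    (((rot m).mul (loc m x)).sub ((rot m).mul (loc m y))).nsq = d2 x y := by
  decide +kernel

theorem rotc_d2 : ∀ m : ZMod 6, ∀ x ∈ [Vertex.dn m, .up m, .up (m + 1), .dn (m + 1)],
    ∀ y ∈ [Vertex.dn m, .up m, .up (m + 1), .dn (m + 1)],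
    (((rot (m + 1)).conj.mul (loc m x)).sub ((rot (m + 1)).conj.mul (loc m y))).nsq = d2 x y := by
  decide +kernel

theorem rot_dn : ∀ m : ZMod 6, loc (m - 1) (.dn m) = (rot m).mul (loc m (.dn m)) := by
  decide +kernel

theorem rot_up : ∀ m : ZMod 6, loc (m - 1) (.up m) = (rot m).mul (loc m (.up m)) := by
  decide +kernel

theorem rotc_dn : ∀ m : ZMod 6, loc m (.dn m) = (rot m).conj.mul (loc (m - 1) (.dn m)) := by
  decide +kernel

theorem rotc_up : ∀ m : ZMod 6, loc m (.up m) = (rot m).conj.mul (loc (m - 1) (.up m)) := by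
  decide +kernel

theorem ccw_sign : ∀ m : ZMod 6, ∀ x ∈ [Vertex.dn m, .up m, .up (m + 1), .dn (m + 1)],
    x ≠ .dn m → x ≠ .up m →
    crs ((loc (m - 1) (.up m)).sub (loc (m - 1) (.dn m)))
      ((loc (m - 1) (.dn (m - 1))).sub (loc (m - 1) (.dn m))) *
    crs (((rot m).mul (loc m (.up m))).sub ((rot m).mul (loc m (.dn m))))
      (((rot m).mul (loc m x)).sub ((rot m).mul (loc m (.dn m)))) < 0 := by
  decide +kernel

theorem cw_sign : ∀ m : ZMod 6, ∀ x ∈ [Vertex.dn (m - 1), .up (m - 1), .up (m - 1 + 1),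
      .dn (m - 1 + 1)],
    x ≠ .dn m → x ≠ .up m →
    crs ((loc m (.up m)).sub (loc m (.dn m)))
      ((loc m (.dn (m + 1))).sub (loc m (.dn m))) *
    crs (((rot m).conj.mul (loc (m - 1) (.up m))).sub ((rot m).conj.mul (loc (m - 1) (.dn m))))
      (((rot m).conj.mul (loc (m - 1) x)).sub ((rot m).conj.mul (loc (m - 1) (.dn m)))) < 0 := by
  decide +kernel

theorem base_sign : ∀ k v : ZMod 6, v ≠ k → v ≠ k + 1 →
    crs ((loc k (.dn (k + 1))).sub (loc k (.dn k))) ((loc k (.up k)).sub (loc k (.dn k))) *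
    crs ((cb k (.dn (k + 1))).sub (cb k (.dn k))) ((cb k (.dn v)).sub (cb k (.dn k))) < 0 := by
  decide +kernel

theorem base_dn : ∀ k : ZMod 6, loc k (.dn k) = cb k (.dn k) := by
  decide +kernel

theorem base_dn' : ∀ k : ZMod 6, loc k (.dn (k + 1)) = cb k (.dn (k + 1)) := by
  decide +kernel

theorem dn_pred_ne : ∀ m : ZMod 6, Vertex.dn (m - 1) ≠ Vertex.dn m := by
  decide

theorem dn_succ_ne : ∀ m : ZMod 6, Vertex.dn (m + 1) ≠ Vertex.dn m := by
  decide

theorem dn_succ2_ne : ∀ m : ZMod 6, Vertex.dn (m + 2) ≠ Vertex.dn m := by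
  decide

theorem dn_succ2_ne' : ∀ m : ZMod 6, Vertex.dn (m + 2) ≠ Vertex.dn (m + 1) := by
  decide

theorem mem_base (v : ZMod 6) : Vertex.dn v ∈ (Face.base (n := 6)).verts := ⟨v, rfl⟩

theorem mem_top (v : ZMod 6) : Vertex.up v ∈ (Face.top (n := 6)).verts := ⟨v, rfl⟩

theorem step_ccw {f : Face 6 → Vertex 6 → ℂ} {i j k m : ZMod 6} {A B : ℂ}
    (hf : IsBandUnfolding P0 i j k f) (hA : Complex.normSq A = 1)
    (hF : ∀ x ∈ (Face.side (m - 1)).verts, f (.side (m - 1)) x = A * (loc (m - 1) x).toC + B)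
    (hm : m ≠ i) :
    ∀ x ∈ (Face.side m).verts, f (.side m) x = (A * (rot m).toC) * (loc m x).toC + B := by
  have := place_of_hinge (g' := fun x => ((rot m).mul (loc m x)).toC) (w := .dn (m - 1)) hA hF
    (hf.side_hinge m hm) (by simp [Face.verts]) (by simp [Face.verts]) (by simp [Face.verts])
    (by simp [Face.verts]) (by simp [Face.verts]) (dn_pred_ne m) (by simp)
    (by simp only [rot_dn]) (by simp only [rot_up])
    (by
      intro x hx y hy
      rw [hf.congr _ x hx y hy, dist_pos, dist_toC, rot_d2 m x (mem_side.mp hx) y (mem_side.mp hy)])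
    (by
      intro x hx h1 h2
      simp only [← toC_sub, cross_toC]
      exact_mod_cast ccw_sign m x (mem_side.mp hx) h1 h2)
  intro x hx
  rw [this x hx, toC_mul]; ring

theorem step_cw {f : Face 6 → Vertex 6 → ℂ} {i j k m : ZMod 6} {A B : ℂ}
    (hf : IsBandUnfolding P0 i j k f) (hA : Complex.normSq A = 1)
    (hF : ∀ x ∈ (Face.side m).verts, f (.side m) x = A * (loc m x).toC + B)
    (hm : m ≠ i) :
    ∀ x ∈ (Face.side (m - 1)).verts,
      f (.side (m - 1)) x = (A * (rot m).conj.toC) * (loc (m - 1) x).toC + B := by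
  have := place_of_hinge (g' := fun x => ((rot m).conj.mul (loc (m - 1) x)).toC)
    (w := .dn (m + 1)) hA hF
    (hf.side_hinge m hm).symm (by simp [Face.verts]) (by simp [Face.verts]) (by simp [Face.verts])
    (by simp [Face.verts]) (by simp [Face.verts]) (dn_succ_ne m) (by simp)
    (by rw [rotc_dn]) (by rw [rotc_up])
    (by
      intro x hx y hy
      rw [hf.congr _ x hx y hy, dist_pos, dist_toC]
      have h := rotc_d2 (m - 1) x (mem_side.mp hx) y (mem_side.mp hy)
      rw [sub_add_cancel] at h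
      rw [h])
    (by
      intro x hx h1 h2
      simp only [← toC_sub, cross_toC]
      exact_mod_cast cw_sign m x (mem_side.mp hx) h1 h2)
  intro x hx
  rw [this x hx, toC_mul]; ring

theorem place_base {f : Face 6 → Vertex 6 → ℂ} {i j k : ZMod 6} {A B : ℂ}
    (hf : IsBandUnfolding P0 i j k f) (hA : Complex.normSq A = 1)
    (hF : ∀ x ∈ (Face.side k).verts, f (.side k) x = A * (loc k x).toC + B) :
    ∀ x ∈ (Face.base (n := 6)).verts, f .base x = A * (cb k x).toC + B := by
  refine place_of_hinge (g' := fun x => (cb k x).toC) (w := .up k) hA hF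
    hf.base_hinge (by simp [Face.verts]) (by simp [Face.verts]) (by simp [Face.verts])
    (by simp [Face.verts]) (by simp [Face.verts]) (by simp) (by simp)
    (by rw [base_dn]) (by rw [base_dn'])
    (by
      rintro x ⟨v, rfl⟩ y ⟨w, rfl⟩
      rw [hf.congr _ _ (mem_base v) _ (mem_base w), dist_pos, dist_toC, cb_d2])
    (by
      rintro x ⟨v, rfl⟩ h1 h2
      simp only [← toC_sub, cross_toC]
      exact_mod_cast base_sign k v (fun h => h1 (by rw [h])) (fun h => h2 (by rw [h])))

theorem loc_edge_ne : ∀ k : ZMod 6, (loc k (.dn (k + 1))).sub (loc k (.dn k)) ≠ ⟨0, 0⟩ := by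
  decide +kernel

theorem toC_ne_zero {z : GQ} (h : z ≠ ⟨0, 0⟩) : z.toC ≠ 0 := by
  intro h0
  apply h
  have h1 := congrArg Complex.re h0
  have h2 := congrArg Complex.im h0
  simp only [toC, Complex.zero_re, Complex.zero_im] at h1 h2
  cases z
  simp only [GQ.mk.injEq]
  exact ⟨by exact_mod_cast h1, by exact_mod_cast h2⟩

theorem start_sign : ∀ k : ZMod 6, ∀ x ∈ [Vertex.dn k, .up k, .up (k + 1), .dn (k + 1)],
    x ≠ .dn k → x ≠ .dn (k + 1) →
    crs ((loc k (.dn (k + 1))).sub (loc k (.dn k))) ((loc k x).sub (loc k (.dn k))) < 0 := by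
  decide +kernel

theorem place_start {f : Face 6 → Vertex 6 → ℂ} {i j k : ZMod 6}
    (hf : IsBandUnfolding P0 i j k f)
    (hc : 0 < cross (f .base (.dn (k + 1)) - f .base (.dn k))
      (f .base (.dn (k + 2)) - f .base (.dn k))) :
    ∃ A B : ℂ, Complex.normSq A = 1 ∧
      ∀ x ∈ (Face.side k).verts, f (.side k) x = A * (loc k x).toC + B := by
  have hk : Vertex.dn k ∈ (Face.side k).verts := by simp [Face.verts]
  have hk' : Vertex.dn (k + 1) ∈ (Face.side k).verts := by simp [Face.verts]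
  set P := f (.side k) (.dn k) with hP
  set Q := f (.side k) (.dn (k + 1)) with hQ
  set e := (loc k (.dn (k + 1))).toC - (loc k (.dn k)).toC with he
  have he0 : e ≠ 0 := by
    rw [he, ← toC_sub]; exact toC_ne_zero (loc_edge_ne k)
  have hdist : dist Q P = dist (loc k (.dn (k + 1))).toC (loc k (.dn k)).toC := by
    rw [hQ, hP, hf.congr _ _ hk' _ hk, dist_pos, dist_toC,
      loc_d2 k _ (mem_side.mp hk') _ (mem_side.mp hk)]
  have hA : Complex.normSq ((Q - P) / e) = 1 := by
    rw [Complex.normSq_eq_norm_sq, norm_div, ← dist_eq_norm, hdist, dist_eq_norm, ← he,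
      div_self (norm_ne_zero_iff.mpr he0), one_pow]
  refine ⟨(Q - P) / e, P - (Q - P) / e * (loc k (.dn k)).toC, hA, ?_⟩
  have h1 : P = (Q - P) / e * (loc k (.dn k)).toC + (P - (Q - P) / e * (loc k (.dn k)).toC) := by
    ring
  have h2 : Q = (Q - P) / e * (loc k (.dn (k + 1))).toC +
      (P - (Q - P) / e * (loc k (.dn k)).toC) := by
    have : (loc k (.dn (k + 1))).toC = e + (loc k (.dn k)).toC := by rw [he]; ring
    rw [this]
    field_simp
    ring
  intro x hx
  by_cases hx1 : x = .dn k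
  · rw [hx1]; exact h1
  by_cases hx2 : x = .dn (k + 1)
  · rw [hx2]; exact h2
  apply unique_frame hA (p := (loc k (.dn k)).toC) (q := (loc k (.dn (k + 1))).toC)
  · rw [← h1, hP, hf.congr _ _ hx _ hk, dist_pos, dist_toC,
      loc_d2 k _ (mem_side.mp hx) _ (mem_side.mp hk)]
  · rw [← h2, hQ, hf.congr _ _ hx _ hk', dist_pos, dist_toC,
      loc_d2 k _ (mem_side.mp hx) _ (mem_side.mp hk')]
  · rw [← h1, ← h2]
    have hH := hf.base_hinge.2.2 x hx (.dn (k + 2)) (mem_base _) hx1 hx2
      (dn_succ2_ne k) (dn_succ2_ne' k)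
    have hlt : cross (Q - P) (f (.side k) x - P) < 0 := by
      rw [mul_comm] at hH
      exact (pos_iff_neg_of_mul_neg hH).mp hc
    have hneg : cross ((loc k (.dn (k + 1))).toC - (loc k (.dn k)).toC)
        ((loc k x).toC - (loc k (.dn k)).toC) < 0 := by
      rw [← toC_sub, ← toC_sub, cross_toC]
      exact_mod_cast start_sign k x (mem_side.mp hx) hx1 hx2
    exact mul_pos_of_neg_of_neg hlt hneg

/-- exact version of `InTri` -/
def GInTri (p q r X : GQ) : Prop :=
  (0 < crs (q.sub p) (X.sub p) ∧ 0 < crs (r.sub q) (X.sub q) ∧ 0 < crs (p.sub r) (X.sub r)) ∨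
  (crs (q.sub p) (X.sub p) < 0 ∧ crs (r.sub q) (X.sub q) < 0 ∧ crs (p.sub r) (X.sub r) < 0)

instance (p q r X : GQ) : Decidable (GInTri p q r X) := by
  unfold GInTri; infer_instance

theorem GInTri.toC {p q r X : GQ} (h : GInTri p q r X) : InTri p.toC q.toC r.toC X.toC := by
  unfold InTri
  simp only [← toC_sub, cross_toC]
  unfold GInTri at h
  exact_mod_cast h

theorem overlap_of {f : Face 6 → Vertex 6 → ℂ} {A B : ℂ} {k m : ZMod 6} {W X : GQ}
    {v1 v2 v3 : ZMod 6} (hA : Complex.normSq A = 1)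
    (hb : ∀ x ∈ (Face.base (n := 6)).verts, f .base x = A * (cb k x).toC + B)
    (hs : ∀ x ∈ (Face.side m).verts, f (.side m) x = A * (W.mul (loc m x)).toC + B)
    (h1 : GInTri (cb k (.dn v1)) (cb k (.dn v2)) (cb k (.dn v3)) X)
    (h2 : GInTri (W.mul (loc m (.dn m))) (W.mul (loc m (.up (m + 1))))
      (W.mul (loc m (.dn (m + 1)))) X) : Overlaps f := by
  refine ⟨.base, .side m, by simp, A * X.toC + B, ?_, ?_⟩
  · have := inTri_mem_interior (inTri_frame (B := B) hA h1.toC)
    refine interior_mono (convexHull_mono ?_) this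
    intro z hz
    rw [← hb _ (mem_base _), ← hb _ (mem_base _), ← hb _ (mem_base _)] at hz
    rcases hz with rfl | rfl | rfl
    · exact ⟨_, mem_base _, rfl⟩
    · exact ⟨_, mem_base _, rfl⟩
    · exact ⟨_, mem_base _, rfl⟩
  · have := inTri_mem_interior (inTri_frame (B := B) hA h2.toC)
    refine interior_mono (convexHull_mono ?_) this
    intro z hz
    rw [← hs _ (by simp [Face.verts]), ← hs _ (by simp [Face.verts]),
      ← hs _ (by simp [Face.verts])] at hz
    rcases hz with rfl | rfl | rfl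
    · exact ⟨_, by simp [Face.verts], rfl⟩
    · exact ⟨_, by simp [Face.verts], rfl⟩
    · exact ⟨_, by simp [Face.verts], rfl⟩

theorem normSq_rot (m : ZMod 6) : Complex.normSq (rot m).toC = 1 := by
  rw [normSq_toC, rot_nsq]; norm_num

theorem rotc_nsq : ∀ m : ZMod 6, (rot m).conj.nsq = 1 := by
  decide +kernel

theorem normSq_rotc (m : ZMod 6) : Complex.normSq (rot m).conj.toC = 1 := by
  rw [normSq_toC, rotc_nsq]; norm_num

theorem normSq_mul_rot {A : ℂ} (hA : Complex.normSq A = 1) (m : ZMod 6) :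
    Complex.normSq (A * (rot m).toC) = 1 := by
  rw [Complex.normSq_mul, hA, normSq_rot, one_mul]

theorem normSq_mul_rotc {A : ℂ} (hA : Complex.normSq A = 1) (m : ZMod 6) :
    Complex.normSq (A * (rot m).conj.toC) = 1 := by
  rw [Complex.normSq_mul, hA, normSq_rotc, one_mul]

theorem ccw2 {f : Face 6 → Vertex 6 → ℂ} {i j k : ZMod 6} {A B : ℂ}
    (hf : IsBandUnfolding P0 i j k f) (hA : Complex.normSq A = 1)
    (hF : ∀ x ∈ (Face.side k).verts, f (.side k) x = A * (loc k x).toC + B)
    (h1 : k + 1 ≠ i) (h2 : k + 2 ≠ i) :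
    ∀ x ∈ (Face.side (k + 2)).verts,
      f (.side (k + 2)) x = A * (((rot (k + 1)).mul (rot (k + 2))).mul (loc (k + 2) x)).toC + B := by
  have e1 : k + 1 - 1 = k := by ring
  have e2 : k + 2 - 1 = k + 1 := by ring
  have s1 := step_ccw (m := k + 1) hf hA (by rw [e1]; exact hF) h1
  have s2 := step_ccw (m := k + 2) hf (normSq_mul_rot hA _) (by rw [e2]; exact s1) h2
  intro x hx
  rw [s2 x hx, toC_mul, toC_mul]; ring

theorem ccw3 {f : Face 6 → Vertex 6 → ℂ} {i j k : ZMod 6} {A B : ℂ}
    (hf : IsBandUnfolding P0 i j k f) (hA : Complex.normSq A = 1)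
    (hF : ∀ x ∈ (Face.side k).verts, f (.side k) x = A * (loc k x).toC + B)
    (h1 : k + 1 ≠ i) (h2 : k + 2 ≠ i) (h3 : k + 3 ≠ i) :
    ∀ x ∈ (Face.side (k + 3)).verts,
      f (.side (k + 3)) x =
        A * ((((rot (k + 1)).mul (rot (k + 2))).mul (rot (k + 3))).mul (loc (k + 3) x)).toC + B := by
  have e1 : k + 1 - 1 = k := by ring
  have e2 : k + 2 - 1 = k + 1 := by ring
  have e3 : k + 3 - 1 = k + 2 := by ring
  have s1 := step_ccw (m := k + 1) hf hA (by rw [e1]; exact hF) h1
  have s2 := step_ccw (m := k + 2) hf (normSq_mul_rot hA _) (by rw [e2]; exact s1) h2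
  have s3 := step_ccw (m := k + 3) hf (normSq_mul_rot (normSq_mul_rot hA _) _)
    (by rw [e3]; exact s2) h3
  intro x hx
  rw [s3 x hx, toC_mul, toC_mul, toC_mul]; ring

theorem cw2 {f : Face 6 → Vertex 6 → ℂ} {i j k : ZMod 6} {A B : ℂ}
    (hf : IsBandUnfolding P0 i j k f) (hA : Complex.normSq A = 1)
    (hF : ∀ x ∈ (Face.side k).verts, f (.side k) x = A * (loc k x).toC + B)
    (h1 : k ≠ i) (h2 : k - 1 ≠ i) :
    ∀ x ∈ (Face.side (k - 1 - 1)).verts,
      f (.side (k - 1 - 1)) x =
        A * (((rot k).conj.mul (rot (k - 1)).conj).mul (loc (k - 1 - 1) x)).toC + B := by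
  have s1 := step_cw (m := k) hf hA hF h1
  have s2 := step_cw (m := k - 1) hf (normSq_mul_rotc hA _) s1 h2
  intro x hx
  rw [s2 x hx, toC_mul, toC_mul]; ring

theorem cw3 {f : Face 6 → Vertex 6 → ℂ} {i j k : ZMod 6} {A B : ℂ}
    (hf : IsBandUnfolding P0 i j k f) (hA : Complex.normSq A = 1)
    (hF : ∀ x ∈ (Face.side k).verts, f (.side k) x = A * (loc k x).toC + B)
    (h1 : k ≠ i) (h2 : k - 1 ≠ i) (h3 : k - 1 - 1 ≠ i) :
    ∀ x ∈ (Face.side (k - 1 - 1 - 1)).verts,
      f (.side (k - 1 - 1 - 1)) x =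
        A * ((((rot k).conj.mul (rot (k - 1)).conj).mul (rot (k - 1 - 1)).conj).mul
          (loc (k - 1 - 1 - 1) x)).toC + B := by
  have s1 := step_cw (m := k) hf hA hF h1
  have s2 := step_cw (m := k - 1) hf (normSq_mul_rotc hA _) s1 h2
  have s3 := step_cw (m := k - 1 - 1) hf (normSq_mul_rotc (normSq_mul_rotc hA _) _) s2 h3
  intro x hx
  rw [s3 x hx, toC_mul, toC_mul, toC_mul]; ring

/-- points of overlap of the base with the lateral face reached counterclockwise -/
def Xu : ZMod 6 → GQ := ![⟨73/100, 159/100⟩, ⟨-17/10, -3/20⟩, ⟨-7/4, -7/50⟩, ⟨49/50, -7/5⟩,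
  ⟨199/200, -36/25⟩, ⟨7/10, 31/20⟩]

/-- base triangles containing the points `Xu` -/
def Tu : ZMod 6 → ZMod 6 × ZMod 6 × ZMod 6 :=
  ![(2, 3, 5), (3, 4, 5), (3, 4, 5), (0, 1, 5), (0, 2, 5), (1, 2, 3)]

/-- points of overlap of the base with the lateral face reached clockwise -/
def Xd : ZMod 6 → GQ := ![⟨-17/10, -1/10⟩, ⟨99/100, -36/25⟩, ⟨19/20, -7/5⟩, ⟨149/200, 159/100⟩,
  ⟨3/4, 3/2⟩, ⟨-7/4, -13/100⟩]

/-- base triangles containing the points `Xd` -/
def Td : ZMod 6 → ZMod 6 × ZMod 6 × ZMod 6 :=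
  ![(3, 4, 5), (0, 3, 5), (0, 2, 5), (1, 2, 5), (1, 2, 5), (3, 4, 5)]

/-- change to the local frame of the lateral face `k` -/
def fr (k : ZMod 6) (X : GQ) : GQ := (X.mul (us k).conj).add ⟨1/4, 0⟩

theorem cert_base_u : ∀ k : ZMod 6, GInTri (cb k (.dn (Tu k).1)) (cb k (.dn (Tu k).2.1))
    (cb k (.dn (Tu k).2.2)) (fr k (Xu k)) := by
  decide +kernel

theorem cert_base_d : ∀ k : ZMod 6, GInTri (cb k (.dn (Td k).1)) (cb k (.dn (Td k).2.1))
    (cb k (.dn (Td k).2.2)) (fr k (Xd k)) := by
  decide +kernel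

theorem cert_ccw2 : ∀ k : ZMod 6, (k = 0 ∨ k = 2 ∨ k = 4) →
    GInTri (((rot (k + 1)).mul (rot (k + 2))).mul (loc (k + 2) (.dn (k + 2))))
      (((rot (k + 1)).mul (rot (k + 2))).mul (loc (k + 2) (.up (k + 2 + 1))))
      (((rot (k + 1)).mul (rot (k + 2))).mul (loc (k + 2) (.dn (k + 2 + 1)))) (fr k (Xu k)) := by
  decide +kernel

theorem cert_ccw3 : ∀ k : ZMod 6, (k = 1 ∨ k = 3 ∨ k = 5) →
    GInTri
      ((((rot (k + 1)).mul (rot (k + 2))).mul (rot (k + 3))).mul (loc (k + 3) (.dn (k + 3))))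
      ((((rot (k + 1)).mul (rot (k + 2))).mul (rot (k + 3))).mul (loc (k + 3) (.up (k + 3 + 1))))
      ((((rot (k + 1)).mul (rot (k + 2))).mul (rot (k + 3))).mul (loc (k + 3) (.dn (k + 3 + 1))))
      (fr k (Xu k)) := by
  decide +kernel

theorem cert_cw2 : ∀ k : ZMod 6, (k = 1 ∨ k = 3 ∨ k = 5) →
    GInTri
      (((rot k).conj.mul (rot (k - 1)).conj).mul (loc (k - 1 - 1) (.dn (k - 1 - 1))))
      (((rot k).conj.mul (rot (k - 1)).conj).mul (loc (k - 1 - 1) (.up (k - 1 - 1 + 1))))
      (((rot k).conj.mul (rot (k - 1)).conj).mul (loc (k - 1 - 1) (.dn (k - 1 - 1 + 1))))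
      (fr k (Xd k)) := by
  decide +kernel

theorem cert_cw3 : ∀ k : ZMod 6, (k = 0 ∨ k = 2 ∨ k = 4) →
    GInTri
      ((((rot k).conj.mul (rot (k - 1)).conj).mul (rot (k - 1 - 1)).conj).mul
        (loc (k - 1 - 1 - 1) (.dn (k - 1 - 1 - 1))))
      ((((rot k).conj.mul (rot (k - 1)).conj).mul (rot (k - 1 - 1)).conj).mul
        (loc (k - 1 - 1 - 1) (.up (k - 1 - 1 - 1 + 1))))
      ((((rot k).conj.mul (rot (k - 1)).conj).mul (rot (k - 1 - 1)).conj).mul
        (loc (k - 1 - 1 - 1) (.dn (k - 1 - 1 - 1 + 1))))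
      (fr k (Xd k)) := by
  decide +kernel

theorem paths : ∀ i k : ZMod 6,
    ((k = 0 ∨ k = 2 ∨ k = 4) ∧
      ((k + 1 ≠ i ∧ k + 2 ≠ i) ∨ (k ≠ i ∧ k - 1 ≠ i ∧ k - 1 - 1 ≠ i))) ∨
    ((k = 1 ∨ k = 3 ∨ k = 5) ∧
      ((k + 1 ≠ i ∧ k + 2 ≠ i ∧ k + 3 ≠ i) ∨ (k ≠ i ∧ k - 1 ≠ i))) := by
  decide

theorem overlaps_pos {f : Face 6 → Vertex 6 → ℂ} {i j k : ZMod 6}
    (hf : IsBandUnfolding P0 i j k f)
    (hc : 0 < cross (f .base (.dn (k + 1)) - f .base (.dn k))
      (f .base (.dn (k + 2)) - f .base (.dn k))) : Overlaps f := by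
  obtain ⟨A, B, hA, hF⟩ := place_start hf hc
  have hb := place_base hf hA hF
  rcases paths i k with ⟨hk, ⟨h1, h2⟩ | ⟨h1, h2, h3⟩⟩ | ⟨hk, ⟨h1, h2, h3⟩ | ⟨h1, h2⟩⟩
  · exact overlap_of hA hb (ccw2 hf hA hF h1 h2) (cert_base_u k) (cert_ccw2 k hk)
  · exact overlap_of hA hb (cw3 hf hA hF h1 h2 h3) (cert_base_d k) (cert_cw3 k hk)
  · exact overlap_of hA hb (ccw3 hf hA hF h1 h2 h3) (cert_base_u k) (cert_ccw3 k hk)
  · exact overlap_of hA hb (cw2 hf hA hF h1 h2) (cert_base_d k) (cert_cw2 k hk)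

/-! ### Reflection -/

theorem cross_conj (z w : ℂ) :
    cross ((starRingEnd ℂ) z) ((starRingEnd ℂ) w) = - cross z w := by
  simp only [cross, Complex.conj_re, Complex.conj_im]; ring

theorem dist_conj' (z w : ℂ) :
    dist ((starRingEnd ℂ) z) ((starRingEnd ℂ) w) = dist z w := by
  rw [dist_eq_norm, dist_eq_norm, ← map_sub, Complex.norm_conj]

theorem Hinge.conj {n : ℕ} {f : Face n → Vertex n → ℂ} {F G : Face n} {u v : Vertex n}
    (H : Hinge f F G u v) : Hinge (fun F v => (starRingEnd ℂ) (f F v)) F G u v := by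
  refine ⟨by simp only [H.1], by simp only [H.2.1], ?_⟩
  intro w hw w' hw' h1 h2 h3 h4
  simp only [← map_sub, cross_conj]
  rw [neg_mul_neg]
  exact H.2.2 w hw w' hw' h1 h2 h3 h4

theorem IsBandUnfolding.conj {n : ℕ} {P : Prismoid n} {i j k : ZMod n}
    {f : Face n → Vertex n → ℂ} (hf : IsBandUnfolding P i j k f) :
    IsBandUnfolding P i j k (fun F v => (starRingEnd ℂ) (f F v)) where
  congr := by
    intro F u hu v hv
    rw [dist_conj']; exact hf.congr F u hu v hv
  side_hinge := fun m hm => (hf.side_hinge m hm).conj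
  top_hinge := hf.top_hinge.conj
  base_hinge := hf.base_hinge.conj

theorem conj_interior (S : Set ℂ) {X : ℂ}
    (h : X ∈ interior (convexHull ℝ ((fun z => (starRingEnd ℂ) z) '' S))) :
    (starRingEnd ℂ) X ∈ interior (convexHull ℝ S) := by
  have h1 : convexHull ℝ ((fun z => (starRingEnd ℂ) z) '' S) =
      Complex.conjLIE.toHomeomorph '' (convexHull ℝ S) :=
    (LinearMap.image_convexHull Complex.conjLIE.toLinearEquiv.toLinearMap S).symm
  rw [h1, ← Homeomorph.image_interior] at h
  obtain ⟨Y, hY, rfl⟩ := h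
  have : (starRingEnd ℂ) (Complex.conjLIE.toHomeomorph Y) = Y := Complex.conj_conj Y
  rw [this]; exact hY

theorem Overlaps.of_conj {n : ℕ} {f : Face n → Vertex n → ℂ}
    (h : Overlaps (fun F v => (starRingEnd ℂ) (f F v))) : Overlaps f := by
  obtain ⟨F, G, hFG, X, hX1, hX2⟩ := h
  refine ⟨F, G, hFG, (starRingEnd ℂ) X, ?_, ?_⟩
  · apply conj_interior
    rw [Set.image_image]
    exact hX1
  · apply conj_interior
    rw [Set.image_image]
    exact hX2

theorem overlaps_all {f : Face 6 → Vertex 6 → ℂ} {i j k : ZMod 6}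
    (hf : IsBandUnfolding P0 i j k f) : Overlaps f := by
  have hH := hf.base_hinge.2.2 (.up k) (by simp [Face.verts]) (.dn (k + 2)) (mem_base _)
    (by simp) (by simp) (dn_succ2_ne k) (dn_succ2_ne' k)
  rcases lt_trichotomy 0 (cross (f .base (.dn (k + 1)) - f .base (.dn k))
      (f .base (.dn (k + 2)) - f .base (.dn k))) with h | h | h
  · exact overlaps_pos hf h
  · rw [← h, mul_zero] at hH
    exact absurd hH (lt_irrefl 0)
  · apply Overlaps.of_conj
    apply overlaps_pos hf.conj
    simp only [← map_sub, cross_conj]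
    linarith

/-! ### Existence of the unfoldings -/

/-- the rotation of the lateral face `m` when the side edge `i` is cut -/
def E (i m : ZMod 6) : GQ :=
  (List.range (m - i).val).foldl (fun e s => e.mul (rot (i + (s : ZMod 6) + 1))) ⟨1, 0⟩

theorem E_nsq : ∀ i m : ZMod 6, (E i m).nsq = 1 := by
  decide +kernel

theorem E_dn : ∀ i m : ZMod 6, m ≠ i →
    (E i (m - 1)).mul (loc (m - 1) (.dn m)) = (E i m).mul (loc m (.dn m)) := by
  decide +kernel

theorem E_up : ∀ i m : ZMod 6, m ≠ i →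
    (E i (m - 1)).mul (loc (m - 1) (.up m)) = (E i m).mul (loc m (.up m)) := by
  decide +kernel

theorem nsq_mul_sub (e x y : GQ) : ((e.mul x).sub (e.mul y)).nsq = e.nsq * (x.sub y).nsq := by
  simp only [GQ.mul, GQ.sub, nsq]; ring

theorem crs_mul_sub (e u v w : GQ) :
    crs ((e.mul v).sub (e.mul u)) ((e.mul w).sub (e.mul u)) =
      e.nsq * crs (v.sub u) (w.sub u) := by
  simp only [GQ.mul, GQ.sub, nsq, crs]; ring

theorem side_sign : ∀ m : ZMod 6, ∀ w ∈ [Vertex.dn (m - 1), .up (m - 1), .up (m - 1 + 1),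
      .dn (m - 1 + 1)], ∀ w' ∈ [Vertex.dn m, .up m, .up (m + 1), .dn (m + 1)],
    w ≠ .dn m → w ≠ .up m → w' ≠ .dn m → w' ≠ .up m →
    crs ((loc (m - 1) (.up m)).sub (loc (m - 1) (.dn m)))
      ((loc (m - 1) w).sub (loc (m - 1) (.dn m))) *
    crs ((loc m (.up m)).sub (loc m (.dn m))) ((loc m w').sub (loc m (.dn m))) < 0 := by
  decide +kernel

theorem base_sign2 : ∀ k : ZMod 6, ∀ w ∈ [Vertex.dn k, .up k, .up (k + 1), .dn (k + 1)],
    ∀ v : ZMod 6, w ≠ .dn k → w ≠ .dn (k + 1) → v ≠ k → v ≠ k + 1 →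
    crs ((loc k (.dn (k + 1))).sub (loc k (.dn k))) ((loc k w).sub (loc k (.dn k))) *
    crs ((cb k (.dn (k + 1))).sub (cb k (.dn k))) ((cb k (.dn v)).sub (cb k (.dn k))) < 0 := by
  decide +kernel

theorem top_sign2 : ∀ k : ZMod 6, ∀ w ∈ [Vertex.dn k, .up k, .up (k + 1), .dn (k + 1)],
    ∀ v : ZMod 6, w ≠ .up k → w ≠ .up (k + 1) → v ≠ k → v ≠ k + 1 →
    crs ((loc k (.up (k + 1))).sub (loc k (.up k))) ((loc k w).sub (loc k (.up k))) *
    crs ((ct k (.up (k + 1))).sub (ct k (.up k))) ((ct k (.up v)).sub (ct k (.up k))) < 0 := by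
  decide +kernel

theorem top_up : ∀ k : ZMod 6, loc k (.up k) = ct k (.up k) := by
  decide +kernel

theorem top_up' : ∀ k : ZMod 6, loc k (.up (k + 1)) = ct k (.up (k + 1)) := by
  decide +kernel

/-- the model of the band unfolding -/
noncomputable def model (i j k : ZMod 6) : Face 6 → Vertex 6 → ℂ
  | .side m, x => ((E i m).mul (loc m x)).toC
  | .base, x => ((E i k).mul (cb k x)).toC
  | .top, x => ((E i j).mul (ct j x)).toC

theorem model_isBandUnfolding (i j k : ZMod 6) : IsBandUnfolding P0 i j k (model i j k) where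
  congr := by
    rintro (_ | _ | m)
    · rintro _ ⟨v, rfl⟩ _ ⟨w, rfl⟩
      rw [dist_pos]
      simp only [model]
      rw [dist_toC, nsq_mul_sub, E_nsq, ct_d2, one_mul]
    · rintro _ ⟨v, rfl⟩ _ ⟨w, rfl⟩
      rw [dist_pos]
      simp only [model]
      rw [dist_toC, nsq_mul_sub, E_nsq, cb_d2, one_mul]
    · intro x hx y hy
      rw [dist_pos]
      simp only [model]
      rw [dist_toC, nsq_mul_sub, E_nsq, loc_d2 m x (mem_side.mp hx) y (mem_side.mp hy), one_mul]
  side_hinge := by
    intro m hm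
    refine ⟨?_, ?_, ?_⟩
    · simp only [model]; rw [E_dn i m hm]
    · simp only [model]; rw [E_up i m hm]
    · intro w hw w' hw' h1 h2 h3 h4
      simp only [model, ← toC_sub, cross_toC, crs_mul_sub, E_nsq, one_mul]
      exact_mod_cast side_sign m w (mem_side.mp hw) w' (mem_side.mp hw') h1 h2 h3 h4
  top_hinge := by
    refine ⟨?_, ?_, ?_⟩
    · simp only [model]; rw [top_up j]
    · simp only [model]; rw [top_up' j]
    · rintro w hw _ ⟨v, rfl⟩ h1 h2 h3 h4
      simp only [model, ← toC_sub, cross_toC, crs_mul_sub, E_nsq, one_mul]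
      exact_mod_cast top_sign2 j w (mem_side.mp hw) v h1 h2 (fun h => h3 (by rw [h]))
        (fun h => h4 (by rw [h]))
  base_hinge := by
    refine ⟨?_, ?_, ?_⟩
    · simp only [model]; rw [base_dn k]
    · simp only [model]; rw [base_dn' k]
    · rintro w hw _ ⟨v, rfl⟩ h1 h2 h3 h4
      simp only [model, ← toC_sub, cross_toC, crs_mul_sub, E_nsq, one_mul]
      exact_mod_cast base_sign2 k w (mem_side.mp hw) v h1 h2 (fun h => h3 (by rw [h]))
        (fun h => h4 (by rw [h]))

/-- **Not every prismoid has a nonoverlapping band unfolding.** There is a prismoid with hexagonal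
base, even one whose top is a homothetic copy of its base (a frustum of a pyramid), all of whose
band unfoldings overlap: for every choice of the cut side edge `i` and of the kept edges `j` of the
top and `k` of the base the band unfolding exists, and every such unfolding has two faces
whose images overlap in their interiors. -/
theorem result : ∃ P : Prismoid 6, (∀ m, P.a m = 2 * P.b m) ∧
    ∀ i j k : ZMod 6, (∃ f, IsBandUnfolding P i j k f) ∧
      ∀ f, IsBandUnfolding P i j k f → Overlaps f :=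
  ⟨P0, fun _ => rfl, fun i j k => ⟨⟨_, model_isBandUnfolding i j k⟩, fun _ hf => overlaps_all hf⟩⟩

end Pool.Agent.Results.MP_1500ab_co.FrustumBand
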